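import Pool.Agent.Helper86.TH.Stmts

/-! # Row DN1 of the project TH: from the partition points to all points -/

namespace TH27

open TH MvPolynomial Finset

noncomputable section

variable {K : Type*} [Field K] [CharZero K]

/-- the point -/
def PN (t' : K) (N : ℕ) (w : ℕ → K) (k : ℕ) : K :=
  1 - (1 - t' ^ (k + 1)) * ∑ i ∈ range N, (t' ^ i) ^ (k + 1) * (1 - w i ^ (k + 1))

theorem pt_eq_PN (q t : K) (μ : Par) (N : ℕ) (h : ∀ i, N ≤ i → μ.1 i = 0) (w : ℕ → K)
    (hw : ∀ i, i < N → w i = q⁻¹ ^ μ.1 i) : pt q t μ = PN t⁻¹ N w := by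
  funext k
  rw [pt, one_sub_Mj_Ps q⁻¹ t⁻¹ μ k N h, PN]
  have h4 : ∀ N : ℕ, (1 - t⁻¹ ^ (k + 1)) * ∑ i ∈ range N, (t⁻¹ ^ i) ^ (k + 1)
      = 1 - (t⁻¹ ^ N) ^ (k + 1) := by
    intro N
    induction N with
    | zero => simp
    | succ n ih =>
      rw [Finset.sum_range_succ, mul_add, ih]
      ring
  have h5 : ∑ i ∈ range N, (t⁻¹ ^ i) ^ (k + 1) * (1 - w i ^ (k + 1))
      = ∑ i ∈ range N, (t⁻¹ ^ i) ^ (k + 1) - ∑ i ∈ range N, zc q⁻¹ t⁻¹ μ i ^ (k + 1) := by
    rw [← Finset.sum_sub_distrib]
    refine Finset.sum_congr rfl fun i hi => ?_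
    rw [hw i (mem_range.1 hi), zc]
    ring
  rw [h5, mul_sub, h4 N]
  ring

/-- the polynomial in the `j`-th coordinate -/
def pP (t' : K) (N : ℕ) (w : ℕ → K) (j k : ℕ) : Polynomial K :=
  1 - (1 - Polynomial.C t' ^ (k + 1)) * ∑ i ∈ range N, (Polynomial.C t' ^ i) ^ (k + 1) *
    (1 - (if i = j then Polynomial.X else Polynomial.C (w i)) ^ (k + 1))

theorem eval_pP (t' : K) (N : ℕ) (w : ℕ → K) (j k : ℕ) (x : K) :
    Polynomial.aeval x (pP t' N w j k) = PN t' N (Function.update w j x) k := by
  rw [pP, PN]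
  simp only [map_sub, map_one, map_mul, map_pow, map_sum, Polynomial.aeval_C]
  congr 1
  congr 1
  refine Finset.sum_congr rfl fun i _ => ?_
  congr 1
  congr 1
  congr 1
  by_cases hij : i = j
  · subst hij
    simp
  · simp [hij]

theorem DN1_core (q t : K) (hG : Gn q t) (F : Sy K) (hF : ∀ μ, ev (pt q t μ) F = 0) (N : ℕ) :
    ∀ (j : ℕ) (w : ℕ → K) (lam : ℕ → ℕ), (∀ i i', j ≤ i → i ≤ i' → lam i' ≤ lam i) →
      (∀ i, j ≤ i → w i = q⁻¹ ^ lam i) → ev (PN t⁻¹ N w) F = 0 := by
  intro j
  induction j with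
  | zero =>
    intro w lam hl hw
    classical
    let f : ℕ →₀ ℕ := Finsupp.onFinset (range N) (fun i => if i < N then lam i else 0) (by
      intro i hi
      rw [mem_range]
      by_contra h
      exact hi (if_neg h))
    have hf : ∀ i, f i = if i < N then lam i else 0 := fun i => rfl
    have hanti : Antitone f := by
      intro i i' hii
      rw [hf, hf]
      by_cases h1 : i' < N
      · rw [if_pos h1, if_pos (lt_of_le_of_lt hii h1)]
        exact hl i i' (Nat.zero_le _) hii
      · rw [if_neg h1]
        exact Nat.zero_le _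
    have h1 := hF ⟨f, hanti⟩
    rw [pt_eq_PN q t ⟨f, hanti⟩ N (fun i hi => by
      show f i = 0
      rw [hf, if_neg (by omega)]) w (fun i hi => by
      rw [hw i (Nat.zero_le _)]
      congr 1
      show lam i = f i
      rw [hf, if_pos hi])] at h1
    exact h1
  | succ j ih =>
    intro w lam hl hw
    have hvan : ∀ l : ℕ, lam (j + 1) ≤ l →
        ev (PN t⁻¹ N (Function.update w j (q⁻¹ ^ l))) F = 0 := by
      intro l hll
      refine ih _ (Function.update lam j l) ?_ ?_
      · intro i i' h1 h2
        by_cases h3 : i = j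
        · subst h3
          rw [Function.update_self]
          by_cases h4 : i' = i
          · subst h4
            rw [Function.update_self]
          · rw [Function.update_of_ne h4]
            exact (hl (i + 1) i' le_rfl (by omega)).trans hll
        · rw [Function.update_of_ne h3, Function.update_of_ne (by omega)]
          exact hl i i' (by omega) h2
      · intro i h1
        by_cases h3 : i = j
        · subst h3
          rw [Function.update_self, Function.update_self]
        · rw [Function.update_of_ne h3, Function.update_of_ne h3]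
          exact hw i (by omega)
    let P : Polynomial K := MvPolynomial.aeval (pP t⁻¹ N w j) F
    have hP : ∀ x : K, Polynomial.aeval x P = ev (PN t⁻¹ N (Function.update w j x)) F := by
      intro x
      have h1 : (Polynomial.aeval x : Polynomial K →ₐ[K] K).comp
          (MvPolynomial.aeval (pP t⁻¹ N w j) : Sy K →ₐ[K] Polynomial K)
          = ev (PN t⁻¹ N (Function.update w j x)) := by
        refine MvPolynomial.algHom_ext fun k => ?_
        rw [AlgHom.comp_apply, MvPolynomial.aeval_X, ev, MvPolynomial.aeval_X, eval_pP]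
      exact congrArg (fun φ : Sy K →ₐ[K] K => φ F) h1
    have hP0 : P = 0 := by
      refine Polynomial.eq_zero_of_infinite_isRoot P ?_
      refine Set.infinite_of_injective_forall_mem
        (f := fun l : ℕ => q⁻¹ ^ (l + lam (j + 1))) ?_ ?_
      · intro a b hab
        have hab' : q⁻¹ ^ (a + lam (j + 1)) = q⁻¹ ^ (b + lam (j + 1)) := hab
        have h1 : q ^ (a + lam (j + 1)) = q ^ (b + lam (j + 1)) := by
          rw [inv_pow, inv_pow] at hab'
          exact inv_injective hab'
        have h2 : q ^ (((a + lam (j + 1) : ℕ) : ℤ) - ((b + lam (j + 1) : ℕ) : ℤ)) * t ^ (0 : ℤ)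
            = 1 := by
          rw [zpow_zero, mul_one, zpow_sub₀ hG.q0, zpow_natCast, zpow_natCast, h1]
          exact div_self (pow_ne_zero _ hG.q0)
        have h3 := (hG.ind _ _ h2).1
        omega
      · intro l
        show Polynomial.IsRoot P _
        rw [Polynomial.IsRoot, ← Polynomial.coe_aeval_eq_eval, hP]
        exact hvan _ (Nat.le_add_left _ _)
    have h1 := hP (w j)
    rw [Function.update_eq_self, hP0, map_zero] at h1
    exact h1.symm

theorem st_DN1 : ST_DN1 K := by
  intro q t hG F hF N w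
  have h1 := DN1_core q t hG F hF N N (fun i => if i < N then w i else 1) (fun _ => 0)
    (fun _ _ _ _ => le_rfl) (fun i hi => by
      show (if i < N then w i else 1) = q⁻¹ ^ 0
      rw [if_neg (by omega), pow_zero])
  have h2 : PN t⁻¹ N (fun i => if i < N then w i else 1) = fun k => 1 - (1 - t⁻¹ ^ (k + 1)) *
      ∑ i ∈ range N, (t⁻¹ ^ i) ^ (k + 1) * (1 - w i ^ (k + 1)) := by
    funext k
    rw [PN]
    congr 2
    refine Finset.sum_congr rfl fun i hi => ?_
    rw [if_pos (mem_range.1 hi)]
  rw [h2] at h1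
  exact h1

end

end TH27
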