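import Pool.Agent.Helper86.TH.Stmts

/-! # Row IND of the project TH: the main induction -/

namespace TH27

open TH MvPolynomial Finset

noncomputable section

variable {K : Type*} [Field K] [CharZero K]

theorem end_neg_mul (E F : Module.End K (Sy K)) : (-E) * F = -(E * F) :=
  LinearMap.ext fun _ => rfl

theorem end_mul_neg (E F : Module.End K (Sy K)) : E * (-F) = -(E * F) :=
  LinearMap.ext fun x => map_neg E (F x)

theorem cm_neg_left (q t : K) (E F : Module.End K (Sy K)) : cm q t (-E) F = cm q t F E := by
  simp only [cm]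
  congr 1
  rw [end_neg_mul, end_mul_neg]
  abel

/-- conjugation of commutators -/
theorem cm_conj (q t : K) (n U V U' V' : Module.End K (Sy K)) (hU : n * U = U' * n)
    (hV : n * V = V' * n) : n * cm q t U V = cm q t U' V' * n := by
  simp only [cm]
  rw [mul_smul_comm, smul_mul_assoc]
  congr 1
  rw [mul_sub, sub_mul]
  congr 1
  · rw [← mul_assoc, hU, mul_assoc, hV, mul_assoc]
  · rw [← mul_assoc, hV, mul_assoc, hU, mul_assoc]

theorem eq_of_conj (n ni U U' W : Module.End K (Sy K)) (h1 : n * ni = 1)
    (h : W = U * n) (h' : W = U' * n) : U = U' := by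
  have : U * (n * ni) = U' * (n * ni) := by
    rw [← mul_assoc, ← mul_assoc, ← h, ← h']
  simpa [h1] using this

/-- commutators of families -/
theorem WF_cm {q t : K} (hM : Mj q t 0 ≠ 0) (hWM : ST_WM K) {m n : ℕ}
    {f g : ℤ → Module.End K (Sy K)} (hf : f ∈ WF q t m) (hg : g ∈ WF q t n) :
    (fun k => cm q t (f k) (g k)) ∈ WF q t (m + n) := by
  have h1 := (hWM q t hM).1 m n f g hf hg
  have h2 := (hWM q t hM).1 n m g f hg hf
  rw [add_comm n m] at h2
  have h3 := Submodule.smul_mem _ (Mj q t 0)⁻¹ (Submodule.sub_mem _ h1 h2)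
  exact h3

theorem WF_Dk (q t : K) (x : ℤ) : (fun k : ℤ => Dk q t (x + k)) ∈ WF q t 1 := by
  refine Submodule.subset_span ⟨[x], rfl, ?_⟩
  funext k
  simp

theorem st_IND (hNT : ST_NT) (hQ1 : ST_Q1 K) (hBA : ST_BA K) (hWM : ST_WM K) (hS : ST_S K)
    (hNA : ST_NA K) : ST_IND K := by
  intro q t hG b hb Q hQ
  have hM : Mj q t 0 ≠ 0 := hG.Mj_ne 0
  obtain ⟨hn1, hn2, hn3, hn4⟩ := hNA q t hG b hb
  obtain ⟨-, -, q1k, qk1⟩ := hQ1 q t hG Q hQ
  have hQ01 : Q 0 1 = -(Bn q t 0) := by rw [hQ.q01]; rfl
  have hQ10 : Q 1 0 = Dk q t 0 := hQ.q10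
  -- conjugation of the boundary cases
  have hc01 : nab q t b * Q 0 1 = Q 1 1 * nab q t b := by
    rw [hQ01, qk1 1]
    have h := hn4 0
    rw [zero_add] at h
    rw [end_mul_neg, end_neg_mul, h]
  have hc10 : nab q t b * Q 1 0 = Q 1 0 * nab q t b := by
    rw [hQ10, hn3]
  -- the family for `(1,1)`
  have hf11 : ∃ f ∈ WF q t 1, f 0 = Q 1 0 ∧ f 1 = Q 1 1 := by
    refine ⟨fun k => Dk q t (0 + k), WF_Dk q t 0, ?_, ?_⟩
    · simp [hQ10]
    · have := q1k 1
      simp only [Nat.cast_one] at this
      simp [this]
  -- the induction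
  have key : ∀ s m n : ℕ, m + n ≤ s → 0 < m → 0 < n →
      (∀ a b' c d : ℕ, Adm m n a b' c d → Q m n = cm q t (Q c d) (Q a b')) ∧
      (m < n → ∃ f ∈ WF q t m, f 0 = Q m (n - m) ∧ f 1 = Q m n) ∧
      (n < m → nab q t b * Q (m - n) n = Q m n * nab q t b) := by
    intro s
    induction s with
    | zero => intro m n h1 h2 h3; omega
    | succ s ih =>
      intro m n hs hm hn
      obtain ⟨a0, b0, c0, d0, hadm0, hQ0⟩ := hQ.rc m n hm hn
      rcases lt_trichotomy m n with hlt | heq | hgt
      · -- `m < n`
        have fam : ∀ a b' c d : ℕ, Adm m n a b' c d → ∃ f ∈ WF q t m,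
            f 0 = Q m (n - m) ∧ f 1 = cm q t (Q c d) (Q a b') := by
          intro a b' c d hadm
          obtain ⟨⟨h1, h2, h3, h4, h5, h6⟩, h7, -, -⟩ := hNT m n a b' c d hm hn hadm
          obtain ⟨h8, h9, h10, h11⟩ := h7 hlt
          have hac : a + c = m := hadm.1
          -- the family of (a,b')
          have fa : ∃ f ∈ WF q t a, f 0 = Q a (b' - a) ∧ f 1 = Q a b' := by
            rcases Nat.eq_or_lt_of_le h8 with h12 | h12
            · have ha1 : a = 1 := h10 h12.symm
              subst ha1
              subst h12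
              simpa using hf11
            · exact (ih a b' (by omega) h3 (by omega)).2.1 h12
          obtain ⟨f, hf, hf0, hf1⟩ := fa
          have hJ : Q m (n - m) = cm q t (Q c (d - c)) (Q a (b' - a)) :=
            (ih m (n - m) (by omega) hm (by omega)).1 a (b' - a) c (d - c) h11
          rcases Nat.eq_zero_or_pos c with hc | hc
          · have hd : d = 1 := h6 hc
            subst hc
            subst hd
            have ham : a = m := by omega
            subst ham
            refine ⟨_, (hWM q t hM).2 a f hf, ?_, ?_⟩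
            · simp only [hf0]
              rw [hJ, Nat.sub_zero, hQ.q01, cm_neg_left]
            · simp only [hf1]
              rw [hQ.q01, cm_neg_left]
          · obtain ⟨g, hg, hg0, hg1⟩ := (ih c d (by omega) hc h4).2.1 h9
            have := WF_cm hM hWM hg hf
            rw [add_comm c a, hac] at this
            refine ⟨_, this, ?_, ?_⟩
            · simp only [hf0, hg0]
              exact hJ.symm
            · simp only [hf1, hg1]
        obtain ⟨f, hf, hf0, hf1⟩ := fam a0 b0 c0 d0 hadm0
        rw [← hQ0] at hf1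
        refine ⟨?_, fun _ => ⟨f, hf, hf0, hf1⟩, fun h => by omega⟩
        intro a b' c d hadm
        obtain ⟨g, hg, hg0, hg1⟩ := fam a b' c d hadm
        have h1 := hS q t hG m (f - g) 0 (Submodule.sub_mem _ hf hg)
          (by simp [hf0, hg0])
        simp only [zero_add, Pi.sub_apply, hf1, hg1, sub_eq_zero] at h1
        exact h1
      · -- `m = n`
        subst heq
        obtain ⟨Φ, ψ, hΦ⟩ := hBA q t hG b hb Q hQ
        obtain ⟨-, -, h3⟩ := hΦ m hm
        have hall : ∀ a b' c d : ℕ, Adm m m a b' c d → cm q t (Q c d) (Q a b') = Φ m 0 := by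
          intro a b' c d hadm
          obtain ⟨-, -, -, h7⟩ := hNT m m a b' c d hm hm hadm
          obtain ⟨h8, h9⟩ := h7 rfl
          have hac : a + c = m := hadm.1
          subst h8
          subst h9
          exact (h3 c b' (by omega)).symm
        refine ⟨?_, fun h => by omega, fun h => by omega⟩
        intro a b' c d hadm
        rw [hall a b' c d hadm, hQ0, hall a0 b0 c0 d0 hadm0]
      · -- `n < m`
        have conj : ∀ a b' c d : ℕ, Adm m n a b' c d →
            nab q t b * Q (m - n) n = cm q t (Q c d) (Q a b') * nab q t b := by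
          intro a b' c d hadm
          obtain ⟨⟨h1, h2, h3, h4, h5, h6⟩, -, h7, -⟩ := hNT m n a b' c d hm hn hadm
          obtain ⟨h8, h9, h10, h11⟩ := h7 hgt
          have hJ : Q (m - n) n = cm q t (Q (c - d) d) (Q (a - b') b') :=
            (ih (m - n) n (by omega) (by omega) hn).1 (a - b') b' (c - d) d h11
          rw [hJ]
          refine cm_conj q t _ _ _ _ _ ?_ ?_
          · rcases Nat.eq_or_lt_of_le h9 with h12 | h12
            · have hc1 : c = 1 := h10 h12.symm
              subst h12
              subst hc1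
              simpa using hc01
            · exact (ih c d (by omega) (by omega) h4).2.2 h12
          · rcases Nat.eq_zero_or_pos b' with h12 | h12
            · have ha1 : a = 1 := h5 h12
              subst h12
              subst ha1
              simpa using hc10
            · exact (ih a b' (by omega) h3 h12).2.2 h8
        have h0 := conj a0 b0 c0 d0 hadm0
        rw [← hQ0] at h0
        refine ⟨?_, fun h => by omega, fun _ => h0⟩
        intro a b' c d hadm
        exact eq_of_conj _ _ _ _ _ hn1 h0 (conj a b' c d hadm)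
  refine ⟨?_, ?_, ?_⟩
  · intro m n hm hn a b' c d hadm
    exact (key (m + n) m n le_rfl hm hn).1 a b' c d hadm
  · intro m n hm hn
    rcases Nat.eq_zero_or_pos n with h0 | h0
    · have hm1 : m = 1 := by omega
      subst h0
      subst hm1
      simpa using hf11
    · have := (key (m + (n + m)) m (n + m) le_rfl hm (by omega)).2.1 (by omega)
      simpa using this
  · intro m n hn hm
    rcases Nat.eq_zero_or_pos m with h0 | h0
    · have hn1 : n = 1 := by omega
      subst h0
      subst hn1
      simpa using hc01
    · have := (key ((m + n) + n) (m + n) n le_rfl (by omega) hn).2.2 (by omega)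
      simpa using this

end

end TH27
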