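import Pool.Agent.Helper86.TH.Stmts

/-! # Row W4 of the project TH -/

namespace TH27

open TH MvPolynomial Finset

noncomputable section

variable {K : Type*} [Field K] [CharZero K]

theorem W4_Bn_one (hDX : ST_DX K) (q t : K) (hM : Mj q t 0 ≠ 0) (F : Sy K) :
    Bn q t 1 F = -(Dk q t 1 F) := by
  have h := congrArg (fun φ : Module.End K (Sy K) => φ F) (hDX q t 0)
  simp only [Module.End.mul_apply, LinearMap.add_apply, LinearMap.smul_apply, zero_add,
    mu_apply] at h
  show (Del q t * mu (X 0) - mu (X 0) * Del q t : Module.End K (Sy K)) F = _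
  rw [LinearMap.sub_apply, Module.End.mul_apply, Module.End.mul_apply, Del]
  simp only [LinearMap.smul_apply, LinearMap.sub_apply, Module.End.one_apply, mu_apply]
  rw [h, mul_smul_comm, ← smul_sub]
  have : X 0 * F - (X 0 * (Dk q t 0) F + Mj q t 0 • (Dk q t 1) F) - X 0 * (F - (Dk q t 0) F)
      = Mj q t 0 • (-(Dk q t 1 F)) := by
    rw [smul_neg]
    ring
  rw [this, smul_smul, inv_mul_cancel₀ hM, one_smul]

theorem W4_WH_zero {F : Sy K} (h : WH 0 F) : F = C (coeff 0 F) := by
  ext s
  rw [coeff_C]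
  by_cases hs : (0 : ℕ →₀ ℕ) = s
  · rw [if_pos hs, hs]
  · rw [if_neg hs]
    by_contra h1
    have h2 := h h1
    apply hs
    have h3 : ∀ j, s j = 0 := by
      intro j
      by_contra h4
      have h5 : j ∈ s.support := Finsupp.mem_support_iff.2 h4
      have h6 : (Finsupp.weight fun j : ℕ => j + 1) s = 0 := h2
      rw [Finsupp.weight_apply, Finsupp.sum] at h6
      have h7 := Finset.sum_eq_zero_iff.1 h6 j h5
      simp only [smul_eq_mul, Nat.mul_eq_zero] at h7
      omega
    ext j
    rw [h3 j]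
    rfl

theorem W4_b_P0 {q t : K} {b : Module.Basis Par K (Sy K)} (h : IsE q t b) : b P0 = 1 := by
  have h1 := h.hom P0
  rw [card_P0] at h1
  have h2 := W4_WH_zero h1
  have h3 := h.eps P0
  rw [h2] at h3 ⊢
  have h4 : (ep (0 : K) (C (coeff 0 (b P0)) : Sy K)) = coeff 0 (b P0) := by
    rw [ep, ev, MvPolynomial.aeval_C]
    rfl
  rw [h4] at h3
  rw [h3, C_1]

theorem W4_Hn_one {q t : K} {b : Module.Basis Par K (Sy K)} (h : IsE q t b) (s : ℕ) :
    Hn q t b (s + 1) 1 = 0 := by
  rw [← W4_b_P0 h, Hn, dg_apply_basis]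
  have : hc (fun j => Ps q t P0 j) (s + 1) = 0 := by
    rw [show (fun j => Ps q t P0 j) = fun _ => (0 : K) from funext fun j => Ps_P0 q t j]
    exact hc_zero_fun s
  rw [this, zero_smul]

/-- the functional `(-u)^s eps_u H_s` -/
def W4lam (q t u : K) (b : Module.Basis Par K (Sy K)) (s : ℕ) : Sy K →ₗ[K] K :=
  (-u) ^ s • ((ep u).toLinearMap ∘ₗ Hn q t b s)

theorem W4lam_apply (q t u : K) (b : Module.Basis Par K (Sy K)) (s : ℕ) (F : Sy K) :
    W4lam q t u b s F = (-u) ^ s * ep u (Hn q t b s F) := rfl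

theorem W4_ep_X (u : K) (F : Sy K) : ep u (X 0 * F) = (1 - u) * ep u F := by
  rw [map_mul]
  congr 1
  rw [ep, ev, MvPolynomial.aeval_X]
  ring

theorem st_W4 (hW3 : ST_W3 K) (hU : ST_U K) (hCS : ST_CS K) (hEP1 : ST_EP1 K) (hDX : ST_DX K) :
    ST_W4 K := by
  intro q t hG b hb u
  have hM : Mj q t 0 ≠ 0 := hG.Mj_ne 0
  obtain ⟨-, cs2, -, -, cN0, cH0, -⟩ := hCS q t hG b hb
  have hD0 : ∀ s (F : Sy K), Hn q t b s (Dk q t 0 F) = Dk q t 0 (Hn q t b s F) := by
    intro s F
    have h1 : Hn q t b s * Dk q t 0 = Dk q t 0 * Hn q t b s := by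
      rw [Dk_zero_eq_dg hb.toIsE, Hn]
      exact dg_comm b _ _
    exact congrArg (fun φ : Module.End K (Sy K) => φ F) h1
  -- relations for lam
  have r10 : ∀ F, W4lam q t u b 0 (X 0 * F) = (1 - u) * W4lam q t u b 0 F := by
    intro F
    rw [W4lam_apply, W4lam_apply, cH0, pow_zero, one_mul, one_mul, Module.End.one_apply,
      Module.End.one_apply, W4_ep_X]
  have r20 : ∀ F, W4lam q t u b 0 (Dk q t 1 F)
      = -W4lam q t u b 0 F + u * W4lam q t u b 0 (Dk q t 0 F) := by
    intro F
    rw [W4lam_apply, W4lam_apply, W4lam_apply, cH0, pow_zero, one_mul, one_mul, one_mul,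
      Module.End.one_apply, Module.End.one_apply, Module.End.one_apply, hEP1]
    ring
  have r1 : ∀ s F, W4lam q t u b (s + 1) (X 0 * F)
      = (1 - u) * W4lam q t u b (s + 1) F + u * W4lam q t u b s (Dk q t 1 F) := by
    intro s F
    have h1 := congrArg (fun φ : Module.End K (Sy K) => φ F) (cs2 s 0)
    simp only [Module.End.mul_apply, LinearMap.add_apply, zero_add] at h1
    rw [W4_Bn_one hDX q t hM, map_neg] at h1
    have h2 : ∀ G : Sy K, Bn q t 0 G = X 0 * G := fun G => rfl
    rw [h2, h2] at h1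
    rw [W4lam_apply, W4lam_apply, W4lam_apply, h1, map_add, map_neg, W4_ep_X]
    ring
  have r2 : ∀ s F, W4lam q t u b (s + 1) (Dk q t 1 F)
      = -W4lam q t u b (s + 1) F + u * W4lam q t u b (s + 1) (Dk q t 0 F)
        + u * W4lam q t u b s (Bn q t 2 F) := by
    intro s F
    have h1 := congrArg (fun φ : Module.End K (Sy K) => φ F) (cs2 s 1)
    simp only [Module.End.mul_apply, LinearMap.add_apply] at h1
    rw [W4_Bn_one hDX q t hM, W4_Bn_one hDX q t hM, map_neg] at h1
    have h2 : Hn q t b (s + 1) (Dk q t 1 F)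
        = Dk q t 1 (Hn q t b (s + 1) F) - Hn q t b s (Bn q t 2 F) := by
      have h3 : (Bn q t (1 + 1)) F = Bn q t 2 F := rfl
      rw [h3] at h1
      linear_combination -h1
    rw [W4lam_apply, W4lam_apply, W4lam_apply, W4lam_apply, h2, map_sub, hEP1, hD0]
    ring
  -- the functional A
  let A : ℕ → Sy K →ₗ[K] K := fun i => (ep u).toLinearMap ∘ₗ Yy q t b i i
  have hA : ∀ i F, A i F = ep u (Yy q t b i i F) := fun i F => rfl
  let A' : ℕ → Sy K →ₗ[K] K := fun i =>
    ∑ p ∈ antidiagonal i, A p.1 1 • W4lam q t u b p.2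
  have hA'0 : ∀ i F, A' i F = ∑ p ∈ antidiagonal i, A p.1 1 * W4lam q t u b p.2 F := by
    intro i F
    show (∑ p ∈ antidiagonal i, A p.1 1 • W4lam q t u b p.2) F = _
    rw [LinearMap.sum_apply]
    rfl
  have hA's : ∀ i F, A' (i + 1) F = A (i + 1) 1 * W4lam q t u b 0 F
      + ∑ p ∈ antidiagonal i, A p.1 1 * W4lam q t u b (p.2 + 1) F := by
    intro i F
    rw [hA'0, Finset.Nat.sum_antidiagonal_succ']
  have main : ∀ i F, A i F = A' i F := by
    intro i
    induction i with
    | zero =>
      intro F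
      rw [hA'0, Finset.Nat.antidiagonal_zero, sum_singleton]
      have h1 : Yy q t b 0 0 = 1 := by
        rw [Yy, Finset.Nat.antidiagonal_zero, sum_singleton, cN0, cH0, est_zero]
        ext F
        simp [mu_apply]
      have h2 : A 0 1 = 1 := by
        rw [hA, h1, Module.End.one_apply, map_one]
      show A 0 F = A 0 1 * W4lam q t u b 0 F
      rw [h2, hA, h1, W4lam_apply, cH0, Module.End.one_apply]
      ring
    | succ i ih =>
      have e1 : ∀ F, A' (i + 1) (X 0 * F) = (1 - u) * A' (i + 1) F + u * A' i (Dk q t 1 F) := by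
        intro F
        rw [hA's, hA's, hA'0, r10]
        simp only [r1]
        rw [mul_add, Finset.mul_sum, Finset.mul_sum, add_assoc, ← Finset.sum_add_distrib]
        congr 1
        · ring
        · refine Finset.sum_congr rfl fun p _ => ?_
          ring
      have e2 : ∀ F, A' (i + 1) (Dk q t 1 F) = -A' (i + 1) F + u * A' (i + 1) (Dk q t 0 F)
          + u * A' i (Bn q t 2 F) := by
        intro F
        rw [hA's, hA's, hA's, hA'0, r20]
        simp only [r2]
        rw [mul_add u, Finset.mul_sum, Finset.mul_sum]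
        have h3 : ∑ p ∈ antidiagonal i, A p.1 1 * (-W4lam q t u b (p.2 + 1) F
            + u * W4lam q t u b (p.2 + 1) (Dk q t 0 F) + u * W4lam q t u b p.2 (Bn q t 2 F))
            = -∑ p ∈ antidiagonal i, A p.1 1 * W4lam q t u b (p.2 + 1) F
              + ∑ p ∈ antidiagonal i, u * (A p.1 1 * W4lam q t u b (p.2 + 1) (Dk q t 0 F))
              + ∑ p ∈ antidiagonal i, u * (A p.1 1 * W4lam q t u b p.2 (Bn q t 2 F)) := by
          rw [← Finset.sum_neg_distrib, ← Finset.sum_add_distrib, ← Finset.sum_add_distrib]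
          refine Finset.sum_congr rfl fun p _ => ?_
          ring
        rw [h3]
        ring
      have h1 := hU q t hM u (A (i + 1) - A' (i + 1)) (by
        intro F
        rw [LinearMap.sub_apply, LinearMap.sub_apply, e1, hA, (hW3 q t hG b hb u i F).1, ← hA,
          ← hA, ih]
        ring) (by
        intro F
        rw [LinearMap.sub_apply, LinearMap.sub_apply, LinearMap.sub_apply, e2, hA,
          (hW3 q t hG b hb u i F).2, ← hA, ← hA, ← hA, ih]
        ring)
      have h2 : A' (i + 1) 1 = A (i + 1) 1 := by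
        have h4 : ep u (1 : Sy K) = 1 := map_one _
        rw [hA's, W4lam_apply, cH0, Module.End.one_apply, h4, pow_zero, mul_one, mul_one]
        have : ∑ p ∈ antidiagonal i, A p.1 1 * W4lam q t u b (p.2 + 1) 1 = 0 := by
          refine Finset.sum_eq_zero fun p _ => ?_
          rw [W4lam_apply, W4_Hn_one hb.toIsE, map_zero, mul_zero, mul_zero]
        rw [this, add_zero]
      intro F
      have h3 := h1 F
      rw [LinearMap.sub_apply, LinearMap.sub_apply, h2, sub_self, zero_mul] at h3
      exact sub_eq_zero.1 h3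
  intro i F
  have h1 := main i F
  rw [hA'0] at h1
  exact h1

end

end TH27
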